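import Pool.Agent.helper51.VF.SpecC
import Pool.Agent.helper51.VF.Lib
import Pool.Agent.helper89.QS.FLG

/-!
# Project vf (MP_74cfa5_ag), row FLD: triangular coordinates for a nilpotent derivation
-/

set_option autoImplicit false

namespace Pool.Agent.VF

open Pool.Agent.PC Pool.Agent.QS

universe u

section

variable {k A F K : Type u} [Field k] [CommRing A] [IsDomain A] [Algebra k A] [Field F] [Field K]
  [Algebra k F] [Algebra k K] [Algebra F K] [IsScalarTower k F K] [Algebra A K] [IsScalarTower k A K]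
  [IsFractionRing A K]

private lemma FLD_smul (I : Ideal A) (c : k) (a : A) (ha : a ∈ I) : c • a ∈ I := by
  rw [Algebra.smul_def]
  exact I.mul_mem_left _ ha

/-- `a / s` is congruent to a constant times `a` -/
private lemma FLD_red (m : Ideal A) [hm : m.IsMaximal] (hk : ∀ a : A, ∃ c : k, a - algebraMap k A c ∈ m)
    (x : K) (hx : LocI m m x) : ∃ b ∈ m, LocI m (m ^ 2) (x - algebraMap A K b) := by
  obtain ⟨a, s, hs, ha, rfl⟩ := hx
  obtain ⟨c, hc⟩ := hk s
  have hc0 : c ≠ 0 := by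
    rintro rfl
    rw [map_zero, sub_zero] at hc
    exact hs hc
  refine ⟨c⁻¹ • a, FLD_smul m _ _ ha, ?_⟩
  have hs0 := LB_ne (K := K) hs
  have hcA : algebraMap k A c * algebraMap k A c⁻¹ = 1 := by
    rw [← map_mul, mul_inv_cancel₀ hc0, map_one]
  refine ⟨(c⁻¹ • a) * (algebraMap k A c - s), s, hs, ?_, ?_⟩
  · rw [pow_two]
    refine Ideal.mul_mem_mul (FLD_smul m _ _ ha) ?_
    rw [← neg_sub]
    exact m.neg_mem hc
  · rw [eq_div_iff hs0, sub_mul, div_mul_cancel₀ _ hs0, ← map_mul, ← map_sub]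
    congr 1
    rw [Algebra.smul_def]
    linear_combination (-a) * hcA

private lemma FLD_in (m : Ideal A) [hm : m.IsMaximal] (hk : ∀ a : A, ∃ c : k, a - algebraMap k A c ∈ m)
    (a : A) (ha : a ∈ m) (h : LocI m (m ^ 2) (algebraMap A K a)) : a ∈ m ^ 2 := by
  rw [LB_I_inn] at h
  obtain ⟨s, hs, hsa⟩ := h
  obtain ⟨c, hc⟩ := hk s
  have hc0 : c ≠ 0 := by
    rintro rfl
    rw [map_zero, sub_zero] at hc
    exact hs hc
  have h1 : (s - algebraMap k A c) * a ∈ m ^ 2 := by
    rw [pow_two]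
    exact Ideal.mul_mem_mul hc ha
  have h2 : algebraMap k A c * a ∈ m ^ 2 := by
    have h3 := (m ^ 2).sub_mem hsa h1
    have h4 : s * a - (s - algebraMap k A c) * a = algebraMap k A c * a := by ring
    rwa [h4] at h3
  have h5 := FLD_smul (m ^ 2) c⁻¹ _ h2
  rw [← Algebra.smul_def, smul_smul, inv_mul_cancel₀ hc0, one_smul] at h5
  exact h5

private lemma FLD_der (m : Ideal A) [hm : m.IsMaximal] (δ : Derivation F K K) (hδ : Fix m δ) (x : K)
    (hx : LocI m (m ^ 2) x) : LocI m (m ^ 2) (δ x) := by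
  have hmp : m.IsPrime := hm.isPrime
  obtain ⟨a, s, hs, ha, rfl⟩ := hx
  have hs0 := LB_ne (K := K) hs
  have h1 : LocI m (m ^ 2) (δ (algebraMap A K a)) := by
    rw [pow_two] at ha
    refine Submodule.mul_induction_on ha (fun b hb c hc => ?_) (fun b c hb hc => ?_)
    · rw [map_mul, δ.leibniz, smul_eq_mul, smul_eq_mul, pow_two]
      exact LB_I_add (LB_I_mul (LB_I_of hmp.ne_top hb) (hδ c)) (LB_I_mul (LB_I_of hmp.ne_top hc) (hδ b))
    · rw [map_add, map_add]
      exact LB_I_add hb hc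
  have h2 : LocI m (m ^ 2) (algebraMap A K a * δ (algebraMap A K s)) := by
    rw [mul_comm]
    exact LB_I_mul_left (LB_I_loc (hδ s)) (LB_I_of hmp.ne_top ha)
  have h3 : LocI m (m ^ 2) (algebraMap A K s * δ (algebraMap A K a)) :=
    LB_I_mul_left (LB_of hmp.ne_top s) h1
  rw [LB_der_div δ _ _ hs0, div_eq_mul_inv, mul_comm]
  refine LB_I_mul_left ?_ (LB_I_sub h3 h2)
  exact ⟨1, s ^ 2, fun h => hs (hmp.mem_of_pow_mem 2 h), by rw [map_one, map_pow, one_div]⟩

end

theorem FLD : FLD_stmt.{u} := by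
  intro k A F K _ _ _ _ _ _ _ _ _ _ _ _ _ n p _ _ m hm δ g hk hloc hδ hpcl hg hy
  have hmp : m.IsPrime := hm.isPrime
  obtain ⟨y, hy1, hy2, hy3⟩ := hy
  set L : (Fin n → k) →ₗ[k] A := Fintype.linearCombination k y with hLdef
  have hL : ∀ c, L c = ∑ i, c i • y i := fun c => Fintype.linearCombination_apply k y c
  have hLm : ∀ c, L c ∈ m := fun c => by
    rw [hL]
    exact m.sum_mem fun i _ => FLD_smul m _ _ (hy1 i)
  have hC0 : ∀ i, ∃ c : Fin n → k, LocI m (m ^ 2) (δ (algebraMap A K (y i)) - algebraMap A K (L c)) := by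
    intro i
    obtain ⟨b, hb, hb2⟩ := FLD_red (k := k) m hk _ (hδ (y i))
    obtain ⟨c, hc⟩ := hy3 b hb
    refine ⟨c, ?_⟩
    have h1 : LocI m (m ^ 2) (algebraMap A K (b - ∑ i, c i • y i)) := LB_I_of hmp.ne_top hc
    have h2 := LB_I_add hb2 h1
    rw [map_sub, sub_add_sub_cancel, ← hL] at h2
    exact h2
  choose C hC using hC0
  set T : (Fin n → k) →ₗ[k] (Fin n → k) := Fintype.linearCombination k C with hTdef
  have hT : ∀ c, T c = ∑ i, c i • C i := fun c => Fintype.linearCombination_apply k C c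
  have hsm : ∀ (c : k) (a : A), algebraMap A K (c • a) = c • algebraMap A K a := by
    intro c a
    rw [Algebra.smul_def, map_mul, ← IsScalarTower.algebraMap_apply, Algebra.smul_def]
  have hδsm : ∀ (c : k) (x : K), δ (c • x) = c • δ x := by
    intro c x
    rw [← algebraMap_smul F c x, δ.map_smul, algebraMap_smul]
  have hLsm : ∀ (c : k) (x : K), LocI m (m ^ 2) x → LocI m (m ^ 2) (c • x) := by
    intro c x hx
    rw [Algebra.smul_def]
    exact LB_I_mul_left (LB_const hmp.ne_top c) hx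
  have hstep : ∀ c, LocI m (m ^ 2) (δ (algebraMap A K (L c)) - algebraMap A K (L (T c))) := by
    intro c
    have h1 : δ (algebraMap A K (L c)) - algebraMap A K (L (T c)) =
        ∑ i, c i • (δ (algebraMap A K (y i)) - algebraMap A K (L (C i))) := by
      rw [hL c, map_sum, map_sum, hT, map_sum, map_sum, ← Finset.sum_sub_distrib]
      refine Finset.sum_congr rfl fun i _ => ?_
      rw [hsm, hδsm, map_smul, hsm, smul_sub]
    rw [h1]
    exact LB_I_sum _ _ fun i _ => hLsm _ _ (hC i)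
  have hiter : ∀ (j : ℕ) (c : Fin n → k),
      LocI m (m ^ 2) ((⇑δ)^[j] (algebraMap A K (L c)) - algebraMap A K (L ((T ^ j) c))) := by
    intro j
    induction j with
    | zero =>
      intro c
      have h0 : (⇑δ)^[0] (algebraMap A K (L c)) - algebraMap A K (L ((T ^ 0) c)) = 0 := by simp
      rw [h0]
      exact LB_I_zero hmp.ne_top
    | succ j ih =>
      intro c
      rw [Function.iterate_succ_apply', pow_succ' T j]
      have h1 := FLD_der m δ hδ _ (ih c)
      rw [map_sub] at h1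
      have h3 := LB_I_add h1 (hstep ((T ^ j) c))
      rw [sub_add_sub_cancel] at h3
      exact h3
  have hTp : T ^ p = 0 := by
    apply LinearMap.ext
    intro c
    have h1 := hiter p c
    rw [hpcl] at h1
    have h2 : LocI m (m ^ 2) (g * δ (algebraMap A K (L c))) := by
      rw [pow_two]
      exact LB_I_mul hg (hδ _)
    have h3 := LB_I_sub h2 h1
    rw [sub_sub_cancel] at h3
    have h4 := FLD_in m hk _ (hLm _) h3
    rw [hL] at h4
    exact hy2 _ h4
  obtain ⟨b, hb⟩ := FLG_tri k n (Fin n → k) (Module.finrank_fin_fun k) T ⟨p, hTp⟩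
  have hLb : ∀ c : Fin n → k, ∑ i, c i • L (b i) = L (∑ i, c i • b i) := by
    intro c
    rw [map_sum]
    refine Finset.sum_congr rfl fun i _ => ?_
    rw [map_smul]
  refine ⟨fun i => L (b i), ⟨fun i => hLm _, fun c hc => ?_, fun a ha => ?_⟩, fun i => ?_⟩
  · rw [hLb, hL] at hc
    have h1 := hy2 _ hc
    have h2 := Fintype.linearIndependent_iff.1 b.linearIndependent c h1
    exact funext h2
  · obtain ⟨c, hc⟩ := hy3 a ha
    refine ⟨b.equivFun c, ?_⟩
    rw [hLb, b.sum_equivFun, hL]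
    exact hc
  · obtain ⟨c, hc, hNc⟩ := hb i
    refine ⟨c, hc, ?_⟩
    show LocI m (m ^ 2) (δ (algebraMap A K (L (b i))) - algebraMap A K (∑ l, c l • L (b l)))
    rw [hLb, ← hNc]
    exact hstep (b i)

end Pool.Agent.VF
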