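import Pool.Agent.helper51.VF.SpecA

/-!
# Project vf (MP_74cfa5_ag), row NVF: the map `Ψ` is not zero
-/

set_option autoImplicit false

namespace Pool.Agent.VF

open Pool.Agent.PC Pool.Agent.QS MvPolynomial

universe u

/-- rows with all entries in a set that spans: some determinant is not zero -/
private lemma NVF_span {K : Type u} [Field K] (n : ℕ) (S : Set (Fin n → K))
    (hS : Submodule.span K S = ⊤) : ∃ v : Fin n → (Fin n → K), (∀ i, v i ∈ S) ∧
      Function.Injective v ∧ (Matrix.of fun i l => v i l).det ≠ 0 := by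
  obtain ⟨b, hbS, hsp, hli⟩ := exists_linearIndependent K S
  have htop : ⊤ ≤ Submodule.span K (Set.range ((↑) : b → (Fin n → K))) := by
    rw [Subtype.range_coe, hsp, hS]
  let B : Module.Basis b K (Fin n → K) := Module.Basis.mk hli htop
  let e : b ≃ Fin n := B.indexEquiv (Pi.basisFun K (Fin n))
  have hinj : Function.Injective fun i : Fin n => ((e.symm i : b) : Fin n → K) :=
    Subtype.val_injective.comp e.symm.injective
  refine ⟨fun i => (e.symm i : b), fun i => hbS (e.symm i).2, hinj, ?_⟩
  have h1 : LinearIndependent K fun i : Fin n => ((e.symm i : b) : Fin n → K) :=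
    hli.comp _ e.symm.injective
  have h2 : LinearIndependent K (Matrix.row (Matrix.of fun i l => ((e.symm i : b) : Fin n → K) l)) := h1
  rw [Matrix.linearIndependent_rows_iff_isUnit, Matrix.isUnit_iff_isUnit_det] at h2
  exact h2.ne_zero

theorem NVF (hEXP : EXP_stmt.{u}) (hJUB : JUB_stmt.{u}) : NVF_stmt.{u} := by
  classical
  intro k F K _ _ _ _ _ _ _ p _ _ hfin hpow n D y hn hΩ hDy δ T hT l0 hl0
  set c : K := y l0 with hc
  have hcF : ∀ f : F, algebraMap F K f ≠ c := by
    intro f hf
    apply hl0
    rw [← hf]
    exact δ.map_algebraMap f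
  -- `K = F(c)`
  have hadj : Algebra.adjoin F {c} = ⊤ := by
    have hp : (Module.finrank F K).Prime := by rw [hfin]; exact Fact.out
    rcases (Subalgebra.isSimpleOrder_of_finrank_prime F K hp).eq_bot_or_eq_top (Algebra.adjoin F {c})
      with h | h
    · exfalso
      have h1 : c ∈ Algebra.adjoin F {c} := Algebra.subset_adjoin rfl
      rw [h, Algebra.mem_bot] at h1
      obtain ⟨f, hf⟩ := h1
      exact hcF f hf
    · exact h
  -- the rows
  let R : K → (Fin n → K) := fun x l => D l x
  have hRadd : ∀ x x', R (x + x') = R x + R x' := fun x x' => funext fun l => map_add (D l) x x'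
  have hRmul : ∀ x x', R (x * x') = x • R x' + x' • R x := fun x x' => funext fun l => by
    show D l (x * x') = x * D l x' + x' * D l x
    rw [(D l).leibniz, smul_eq_mul, smul_eq_mul]
  let S : Set (Fin n → K) := R '' (Set.range (algebraMap F K) ∪ {c})
  have hall : ∀ x : K, R x ∈ Submodule.span K S := by
    intro x
    have hx : x ∈ Algebra.adjoin F {c} := by rw [hadj]; exact Algebra.mem_top
    refine Algebra.adjoin_induction (p := fun x _ => R x ∈ Submodule.span K S) ?_ ?_ ?_ ?_ hx
    · intro z hz
      rw [Set.mem_singleton_iff] at hz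
      subst hz
      exact Submodule.subset_span ⟨_, Or.inr rfl, rfl⟩
    · intro f
      exact Submodule.subset_span ⟨_, Or.inl ⟨f, rfl⟩, rfl⟩
    · intro z z' _ _ h h'
      rw [hRadd]
      exact Submodule.add_mem _ h h'
    · intro z z' _ _ h h'
      rw [hRmul]
      exact Submodule.add_mem _ (Submodule.smul_mem _ _ h') (Submodule.smul_mem _ _ h)
  have hspan : Submodule.span K S = ⊤ := by
    rw [eq_top_iff, ← (Pi.basisFun K (Fin n)).span_eq, Submodule.span_le]
    rintro _ ⟨i, rfl⟩
    have h1 : R (y i) = Pi.basisFun K (Fin n) i := by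
      funext l
      show D l (y i) = _
      rw [hDy, Pi.basisFun_apply, Pi.single_apply]
    rw [← h1]
    exact hall (y i)
  obtain ⟨v, hvS, hinj, hdet⟩ := NVF_span n S hspan
  choose x hxS hxv using hvS
  have hdetJ : JJ D x ≠ 0 := by
    have h1 : (Matrix.of fun i l => v i l) = Matrix.of fun i j => D j (x i) := by
      ext i l
      show v i l = D l (x i)
      rw [← hxv i]
    rw [h1] at hdet
    exact hdet
  -- not all `x i` are in `F`
  have hex : ∃ i0, x i0 = c := by
    by_contra hne
    push Not at hne
    have hF : ∀ i, ∃ f : F, algebraMap F K f = x i := by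
      intro i
      rcases hxS i with h | h
      · exact h
      · exact absurd h (hne i)
    apply hdetJ
    show Matrix.det (Matrix.of fun i j => D j (x i)) = 0
    rw [← Matrix.exists_mulVec_eq_zero_iff]
    refine ⟨fun l => δ (y l), fun h0 => hl0 (congrFun h0 l0), ?_⟩
    funext i
    have h1 := hEXP k K n D y hn hΩ hDy (δ.restrictScalars k) (x i)
    obtain ⟨f, hf⟩ := hF i
    have h2 : (δ.restrictScalars k) (x i) = 0 := by
      show δ (x i) = 0
      rw [← hf]
      exact δ.map_algebraMap f
    rw [h2] at h1
    show ∑ l, D l (x i) * δ (y l) = 0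
    rw [h1]
    exact Finset.sum_congr rfl fun l _ => mul_comm _ _
  obtain ⟨i0, hi0⟩ := hex
  have hothers : ∀ i, i ≠ i0 → ∃ f : F, algebraMap F K f = x i := by
    intro i hi
    rcases hxS i with h | h
    · exact h
    · exfalso
      apply hi
      apply hinj
      rw [← hxv i, ← hxv i0, hi0, Set.mem_singleton_iff.1 h]
  have hf : ∀ i, ∃ f : F, algebraMap F K f = if i = i0 then c ^ p else x i := by
    intro i
    by_cases h : i = i0
    · rw [if_pos h]; exact hpow c
    · rw [if_neg h]; exact hothers i h
  choose f hf using hf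
  refine ⟨f, ?_⟩
  have hfi0 : algebraMap F K (f i0) = c ^ p := by rw [hf, if_pos rfl]
  rw [hJUB k F K p n D y hn hΩ hDy δ T hT l0 hl0 f i0 c hfi0]
  have hup : Function.update (fun i => algebraMap F K (f i)) i0 c = x := by
    funext i
    by_cases h : i = i0
    · subst h
      rw [Function.update_self, hi0]
    · rw [Function.update_of_ne h, hf, if_neg h]
  rw [hup]
  exact mul_ne_zero (pow_ne_zero _ hl0) hdetJ

end Pool.Agent.VF
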